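import Pool.Agent.helper96.PP2.SpecA

set_option autoImplicit false

namespace Pool.Agent.PP2

theorem IXN_step (p : ℕ) (U : Type) [Group U] [TopologicalSpace U] (F : ℕ → Subgroup U)
    (hU : Unif p U F) (n : ℕ) :
    ((F (n + 1)).subgroupOf (F n)).index = ((F (n + 2)).subgroupOf (F (n + 1))).index := by
  have : (F (n + 2)).Normal := hU.nor (n + 2)
  have hcomm : ∀ x ∈ F n, ∀ y ∈ F n,
      Commute (QuotientGroup.mk' (F (n + 2)) x) (QuotientGroup.mk' (F (n + 2)) y) := by
    intro x hx y hy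
    have h := hU.com n x hx y hy
    have h2 : QuotientGroup.mk' (F (n + 2)) (x * y * x⁻¹ * y⁻¹) = 1 :=
      (QuotientGroup.eq_one_iff _).mpr h
    rw [map_mul, map_mul, map_mul, map_inv, map_inv] at h2
    have h3 := mul_inv_eq_one.mp h2
    have h4 := mul_inv_eq_iff_eq_mul.mp h3
    exact h4
  let φ : F n →* U ⧸ F (n + 2) :=
    { toFun := fun x => (QuotientGroup.mk' (F (n + 2)) (x : U)) ^ p
      map_one' := by simp
      map_mul' := by
        intro x y
        rw [Subgroup.coe_mul, map_mul, (hcomm x x.2 y y.2).mul_pow] }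
  let ψ : F (n + 1) →* U ⧸ F (n + 2) := (QuotientGroup.mk' (F (n + 2))).comp (F (n + 1)).subtype
  have hφ : ∀ x : F n, φ x = QuotientGroup.mk' (F (n + 2)) ((x : U) ^ p) := by
    intro x
    rw [map_pow]; rfl
  have hk1 : φ.ker = (F (n + 1)).subgroupOf (F n) := by
    ext x
    rw [MonoidHom.mem_ker, hφ, Subgroup.mem_subgroupOf]
    constructor
    · intro h
      have h1 : (x : U) ^ p ∈ F (n + 2) := (QuotientGroup.eq_one_iff _).mp h
      obtain ⟨y, hy, hyx⟩ := hU.root (n + 1) _ h1
      rw [hU.inj _ _ hyx.symm]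
      exact hy
    · intro h
      exact (QuotientGroup.eq_one_iff _).mpr (hU.pow (n + 1) _ h)
  have hk2 : ψ.ker = (F (n + 2)).subgroupOf (F (n + 1)) := by
    ext x
    rw [MonoidHom.mem_ker, Subgroup.mem_subgroupOf]
    exact QuotientGroup.eq_one_iff _
  have hr : φ.range = ψ.range := by
    ext z
    constructor
    · rintro ⟨x, rfl⟩
      refine ⟨⟨(x : U) ^ p, hU.pow n _ x.2⟩, ?_⟩
      rw [hφ]; rfl
    · rintro ⟨y, rfl⟩
      obtain ⟨x, hx, hxy⟩ := hU.root n _ y.2
      refine ⟨⟨x, hx⟩, ?_⟩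
      rw [hφ]
      show QuotientGroup.mk' (F (n + 2)) (x ^ p) = _
      rw [hxy]; rfl
  rw [← hk1, ← hk2, Subgroup.index_ker, Subgroup.index_ker, hr]

theorem IXN_row : IXN_stmt := by
  intro p U _ _ _ _ F _ hU
  have h1 : ∀ n, ((F (n + 1)).subgroupOf (F n)).index = (F 1).index := by
    intro n
    induction n with
    | zero =>
      have : (F 0) = ⊤ := hU.top
      show (F 1).relIndex (F 0) = (F 1).index
      rw [this, Subgroup.relIndex_top_right]
    | succ n ih => rw [← IXN_step p U F hU n, ih]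
  intro n
  refine ⟨h1 n, ?_⟩
  induction n with
  | zero => rw [hU.top, Subgroup.index_top, pow_zero]
  | succ n ih =>
    have h2 : (F (n + 1)).relIndex (F n) * (F n).index = (F (n + 1)).index :=
      Subgroup.relIndex_mul_index (hU.anti (Nat.le_succ n))
    have h3 : (F (n + 1)).relIndex (F n) = (F 1).index := h1 n
    rw [← h2, h3, ih, pow_succ]
    ring

end Pool.Agent.PP2
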