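import Pool.Agent.helper96.PP2.SpecA

set_option autoImplicit false

namespace Pool.Agent.PP2

open Topology

/-- the extension -/
structure SEC_E (p : ℕ) (U : Type) : Type where
  /-- first coordinate -/
  a : Fp p
  /-- second coordinate -/
  x : U

theorem SEC_ext {p : ℕ} {U : Type} {e e' : SEC_E p U} (h1 : e.a = e'.a) (h2 : e.x = e'.x) :
    e = e' := by
  cases e; cases e'; simp only at h1 h2; rw [h1, h2]

theorem SEC_coc {p : ℕ} {U : Type} [Group U] (f : U → U → Fp p)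
    (hf : ∀ a b c : U, d2 f a b c = 0) (x y z : U) :
    f x y + f (x * y) z = f y z + f x (y * z) := by
  have h := hf x y z
  unfold d2 at h
  have h2 : x • f y z = f y z := rfl
  rw [h2] at h
  have h3 : f y z + f x (y * z) = f x y + f (x * y) z := by
    have : f y z + f x (y * z) - (f x y + f (x * y) z)
        = f y z - f (x * y) z + f x (y * z) - f x y := by abel
    rw [h] at this
    exact sub_eq_zero.mp this
  exact h3.symm

theorem SEC_1l {p : ℕ} {U : Type} [Group U] (f : U → U → Fp p)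
    (hf : ∀ a b c : U, d2 f a b c = 0) (h1 : f 1 1 = 0) (x : U) : f 1 x = 0 := by
  have h := SEC_coc f hf 1 1 x
  rw [h1, one_mul, one_mul, zero_add] at h
  have : f 1 x + 0 = f 1 x + f 1 x := by rw [add_zero]; exact h
  exact (add_left_cancel this).symm

theorem SEC_1r {p : ℕ} {U : Type} [Group U] (f : U → U → Fp p)
    (hf : ∀ a b c : U, d2 f a b c = 0) (h1 : f 1 1 = 0) (x : U) : f x 1 = 0 := by
  have h := SEC_coc f hf x 1 1
  rw [h1, one_mul, mul_one, zero_add] at h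
  have : f x 1 + f x 1 = 0 + f x 1 := by rw [zero_add]; exact h
  exact add_right_cancel this

/-- the group structure of the extension -/
@[reducible] def SEC_grp {p : ℕ} {U : Type} [Group U] (f : U → U → Fp p)
    (hf : ∀ a b c : U, d2 f a b c = 0) (h1 : f 1 1 = 0) : Group (SEC_E p U) :=
  letI : Mul (SEC_E p U) := ⟨fun e e' => ⟨e.a + e'.a + f e.x e'.x, e.x * e'.x⟩⟩
  letI : One (SEC_E p U) := ⟨⟨0, 1⟩⟩
  letI : Inv (SEC_E p U) := ⟨fun e => ⟨-e.a - f e.x⁻¹ e.x, e.x⁻¹⟩⟩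
  Group.ofLeftAxioms
    (by
      intro e e' e''
      apply SEC_ext
      · show e.a + e'.a + f e.x e'.x + e''.a + f (e.x * e'.x) e''.x
          = e.a + (e'.a + e''.a + f e'.x e''.x) + f e.x (e'.x * e''.x)
        have h := SEC_coc f hf e.x e'.x e''.x
        have e1 : e.a + e'.a + f e.x e'.x + e''.a + f (e.x * e'.x) e''.x
            = e.a + e'.a + e''.a + (f e.x e'.x + f (e.x * e'.x) e''.x) := by abel
        rw [e1, h]
        abel
      · exact mul_assoc _ _ _)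
    (by
      intro e
      apply SEC_ext
      · show 0 + e.a + f 1 e.x = e.a
        rw [SEC_1l f hf h1, zero_add, add_zero]
      · exact one_mul _)
    (by
      intro e
      apply SEC_ext
      · show -e.a - f e.x⁻¹ e.x + e.a + f e.x⁻¹ e.x = 0
        abel
      · exact inv_mul_cancel _)

theorem SEC_tube {p : ℕ} {U : Type} [Group U] [TopologicalSpace U] [CompactSpace U]
    (F : ℕ → Subgroup U) (hU : Unif p U F) (f : U → U → Fp p) (hf : LC2 f)
    (h1 : ∀ x, f x 1 = 0) : ∃ m, ∀ x, ∀ w ∈ F m, f x w = 0 := by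
  have hop : IsOpen {z : U × U | f z.1 z.2 = 0} := hf.isOpen_fiber 0
  have hsub : (Set.univ : Set U) ×ˢ ({1} : Set U) ⊆ {z : U × U | f z.1 z.2 = 0} := by
    rintro ⟨x, y⟩ ⟨-, hy⟩
    have hy' : y = 1 := hy
    subst hy'
    exact h1 x
  obtain ⟨u, v, -, hv, hu', hv', huv⟩ :=
    generalized_tube_lemma isCompact_univ isCompact_singleton hop hsub
  obtain ⟨m, hm⟩ := hU.basis v (hv.mem_nhds (hv' rfl))
  refine ⟨m, fun x w hw => ?_⟩
  have h2 : (x, w) ∈ {z : U × U | f z.1 z.2 = 0} := huv ⟨hu' (Set.mem_univ x), hm hw⟩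
  exact h2

theorem SEC_p (p : ℕ) (a : Fp p) : p • a = 0 := by
  show (p • (show ZMod p from a) : ZMod p) = 0
  rw [nsmul_eq_mul, ZMod.natCast_self, zero_mul]

theorem SEC_main (hKEY : KEY_stmt) (p : ℕ) (U : Type) [Group U] [TopologicalSpace U]
    [IsTopologicalGroup U] [CompactSpace U] (F : ℕ → Subgroup U) (hp : p.Prime) (hp2 : p ≠ 2)
    (hU : Unif p U F) (f : U → U → Fp p) (hlc : LC2 f) (hf : ∀ a b c : U, d2 f a b c = 0)
    (h1 : f 1 1 = 0) :
    ∃ σ : U → Fp p, IsLocallyConstant σ ∧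
        (∀ v ∈ F 1, ∀ w ∈ F 1, σ (v * w) = σ v + σ w + f v w) ∧
        (∀ g : U, ∀ v ∈ F 1, f g v + σ v = σ (g * v * g⁻¹) + f (g * v * g⁻¹) g) := by
  classical
  let G : Group (SEC_E p U) := SEC_grp f hf h1
  have hl := SEC_1l f hf h1
  have hr := SEC_1r f hf h1
  have ma : ∀ e e' : SEC_E p U, (e * e').a = e.a + e'.a + f e.x e'.x := fun _ _ => rfl
  have mx : ∀ e e' : SEC_E p U, (e * e').x = e.x * e'.x := fun _ _ => rfl
  have oa : (1 : SEC_E p U).a = 0 := rfl
  have ox : (1 : SEC_E p U).x = 1 := rfl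
  let π : SEC_E p U →* U := { toFun := fun e => e.x, map_one' := rfl, map_mul' := fun _ _ => rfl }
  have πx : ∀ e : SEC_E p U, π e = e.x := fun _ => rfl
  have hπs : Function.Surjective π := fun x => ⟨⟨0, x⟩, rfl⟩
  -- the kernel
  have hkp : ∀ (a : Fp p) (k : ℕ), (⟨a, 1⟩ : SEC_E p U) ^ k = ⟨k • a, 1⟩ := by
    intro a k
    induction k with
    | zero => rw [pow_zero, zero_smul]; rfl
    | succ k ih =>
      rw [pow_succ, ih]
      apply SEC_ext
      · rw [ma]
        show k • a + a + f 1 1 = (k + 1) • a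
        rw [h1, add_zero, succ_nsmul]
      · rw [mx]
        show (1 : U) * 1 = 1
        rw [mul_one]
  have hker : ∀ z ∈ π.ker, z ^ p = 1 ∧ ∀ e : SEC_E p U, z * e = e * z := by
    intro z hz
    have hzx : z.x = 1 := hz
    have hz2 : z = ⟨z.a, 1⟩ := SEC_ext rfl hzx
    constructor
    · rw [hz2, hkp, SEC_p]
      rfl
    · intro e
      apply SEC_ext
      · rw [ma, ma, hzx, hl, hr, add_zero, add_zero, add_comm]
      · rw [mx, mx, hzx, one_mul, mul_one]
  have hpow : ∀ e e' : SEC_E p U, e.x = e'.x → e ^ p = e' ^ p := by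
    intro e e' h
    have hz : e * e'⁻¹ ∈ π.ker := by
      rw [MonoidHom.mem_ker, map_mul, map_inv, πx, πx, h, mul_inv_cancel]
    obtain ⟨z1, z2⟩ := hker _ hz
    have he : e = (e * e'⁻¹) * e' := by group
    have hc : Commute (e * e'⁻¹) e' := z2 e'
    calc e ^ p = ((e * e'⁻¹) * e') ^ p := by rw [← he]
      _ = (e * e'⁻¹) ^ p * e' ^ p := hc.mul_pow p
      _ = e' ^ p := by rw [z1, one_mul]
  let s : U → SEC_E p U := fun v =>
    if h : ∃ x : U, x ^ p = v then (⟨0, h.choose⟩ : SEC_E p U) ^ p else ⟨0, v⟩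
  have hs : ∀ e : SEC_E p U, s ((π e) ^ p) = e ^ p := by
    intro e
    have h : ∃ x : U, x ^ p = (π e) ^ p := ⟨π e, rfl⟩
    show (if h : ∃ x : U, x ^ p = (π e) ^ p then (⟨0, h.choose⟩ : SEC_E p U) ^ p
      else ⟨0, (π e) ^ p⟩) = e ^ p
    rw [dif_pos h]
    apply hpow
    exact hU.inj _ _ h.choose_spec
  -- uniform local constancy
  obtain ⟨m, hm⟩ := SEC_tube F hU f hlc hr
  have hm0 : ∀ x ∈ F m, ∀ k : ℕ, (⟨0, x⟩ : SEC_E p U) ^ k = ⟨0, x ^ k⟩ := by
    intro x hx k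
    induction k with
    | zero => rw [pow_zero, pow_zero]; rfl
    | succ k ih =>
      rw [pow_succ, ih]
      apply SEC_ext
      · rw [ma]
        show 0 + 0 + f (x ^ k) x = 0
        rw [hm _ x hx, add_zero, add_zero]
      · rw [mx]
        show x ^ k * x = x ^ (k + 1)
        rw [pow_succ]
  have hsm : ∀ v ∈ F (m + 1), s v = ⟨0, v⟩ := by
    intro v hv
    obtain ⟨x, hx, hxv⟩ := hU.root m v hv
    have h2 := hs ⟨0, x⟩
    have h3 : (π (⟨0, x⟩ : SEC_E p U)) ^ p = v := hxv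
    rw [h3, hm0 x hx p, hxv] at h2
    exact h2
  have hle : F (m + 1) ≤ F m := hU.anti (Nat.le_succ m)
  have hmult := hKEY p U F (SEC_E p U) π s (m + 1) hp hp2 hU hπs hker hs (by omega)
    (by
      intro v hv w hw
      rw [hsm v hv, hsm w hw, hsm (v * w) ((F (m + 1)).mul_mem hv hw)]
      apply SEC_ext
      · rw [ma]
        show 0 = 0 + 0 + f v w
        rw [hm v w (hle hw), add_zero, add_zero]
      · rfl)
  have hsx : ∀ v ∈ F 1, (s v).x = v := by
    intro v hv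
    obtain ⟨x, -, hxv⟩ := hU.root 0 v hv
    have h2 := hs ⟨0, x⟩
    have h3 : (π (⟨0, x⟩ : SEC_E p U)) ^ p = v := hxv
    rw [h3] at h2
    rw [h2]
    have h4 : ((⟨0, x⟩ : SEC_E p U) ^ p).x = π ((⟨0, x⟩ : SEC_E p U) ^ p) := rfl
    rw [h4, map_pow]
    exact hxv
  have hconj : ∀ g : U, ∀ v ∈ F 1,
      (⟨0, g⟩ : SEC_E p U) * s v = s (g * v * g⁻¹) * ⟨0, g⟩ := by
    intro g v hv
    obtain ⟨x, -, hxv⟩ := hU.root 0 v hv
    have h2 := hs ⟨0, x⟩
    have h3 : (π (⟨0, x⟩ : SEC_E p U)) ^ p = v := hxv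
    rw [h3] at h2
    have h5 := hs (⟨0, g⟩ * ⟨0, x⟩ * (⟨0, g⟩ : SEC_E p U)⁻¹)
    have h6 : (π (⟨0, g⟩ * ⟨0, x⟩ * (⟨0, g⟩ : SEC_E p U)⁻¹)) ^ p = g * v * g⁻¹ := by
      rw [map_mul, map_mul, map_inv]
      show (g * x * g⁻¹) ^ p = g * v * g⁻¹
      rw [conj_pow, hxv]
    rw [h6, conj_pow] at h5
    rw [h2, h5]
    group
  have hn : (F 1).Normal := hU.nor 1
  let σ : U → Fp p := fun v => if v ∈ F 1 then (s v).a else 0
  have hσ : ∀ v ∈ F 1, σ v = (s v).a := fun v hv => if_pos hv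
  have hσ0 : ∀ w ∈ F (m + 1), σ w = 0 := by
    intro w hw
    rw [hσ w (hU.anti (by omega) hw), hsm w hw]
  have hadd : ∀ v ∈ F 1, ∀ w ∈ F 1, σ (v * w) = σ v + σ w + f v w := by
    intro v hv w hw
    have h2 := hmult v hv w hw
    rw [hσ _ ((F 1).mul_mem hv hw), hσ v hv, hσ w hw, h2, ma, hsx v hv, hsx w hw]
  refine ⟨σ, ?_, hadd, ?_⟩
  · rw [IsLocallyConstant.iff_exists_open]
    intro x
    refine ⟨{y | x⁻¹ * y ∈ F (m + 1)}, ?_, ?_, ?_⟩
    · exact (hU.op (m + 1)).preimage (continuous_const.mul continuous_id)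
    · show x⁻¹ * x ∈ F (m + 1)
      rw [inv_mul_cancel]
      exact (F (m + 1)).one_mem
    · intro y hy
      have hy' : x⁻¹ * y ∈ F (m + 1) := hy
      have hy1 : x⁻¹ * y ∈ F 1 := hU.anti (by omega) hy'
      have hyx : y = x * (x⁻¹ * y) := by group
      by_cases hx : x ∈ F 1
      · rw [hyx, hadd x hx _ hy1, hσ0 _ hy', hm x _ (hle hy'), add_zero, add_zero]
      · have hy2 : y ∉ F 1 := by
          intro hy2
          apply hx
          have : x = y * (x⁻¹ * y)⁻¹ := by group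
          rw [this]
          exact (F 1).mul_mem hy2 ((F 1).inv_mem hy1)
        show (if y ∈ F 1 then (s y).a else 0) = (if x ∈ F 1 then (s x).a else 0)
        rw [if_neg hx, if_neg hy2]
  · intro g v hv
    have h2 := hconj g v hv
    have hgv : g * v * g⁻¹ ∈ F 1 := hn.conj_mem v hv g
    have h3 : ((⟨0, g⟩ : SEC_E p U) * s v).a = (s (g * v * g⁻¹) * ⟨0, g⟩).a := by rw [h2]
    rw [ma, ma, hsx v hv, hsx _ hgv] at h3
    have h4 : (0 : Fp p) + (s v).a + f g v = (s (g * v * g⁻¹)).a + 0 + f (g * v * g⁻¹) g := h3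
    rw [zero_add, add_zero] at h4
    rw [hσ v hv, hσ _ hgv, add_comm]
    exact h4

theorem SEC_row (hKEY : KEY_stmt) : SEC_stmt := by
  intro p U _ _ _ _ F hp hp2 hU f hf h1
  exact SEC_main hKEY p U F hp hp2 hU f hf.1 hf.2 h1

end Pool.Agent.PP2
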